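import Pool.Agent.Lib.MP_0c0609_co.Lower

set_option autoImplicit false

namespace Pool.Agent.Results.MP_0c0609_co.Threshold

open Pool.Agent.Lib.MP_0c0609_co

/-- There are finitely many equitably 2-choosable disjoint unions of `n` stars iff `n ≤ 4`. -/
theorem result (n : ℕ) :
    {s : Multiset ℕ | ∃ m : Fin n → ℕ, (∀ i, 1 ≤ m i) ∧ s = Multiset.map m Finset.univ.val ∧
      EquitablyChoosable (stars m) 2}.Finite ↔ n ≤ 4 :=
  main n

end Pool.Agent.Results.MP_0c0609_co.Threshold
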